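import Pool.Agent.Q266.RP.Stm

/-! Lemma job PROP (helper83 for helper266). -/

namespace Pool.Agent.Q83.RP

open commutatorElement

open Pool.Agent.Q266.RP

theorem prop : S_PROP := by
  intro p _ G _ _ hp a b _ hnc htop
  have hnil : Group.IsNilpotent G := hp.isNilpotent
  have hcl : Subgroup.closure ({a} : Set G) = ⊤ := by
    by_contra hne
    obtain ⟨M, hM, haM⟩ := (eq_top_or_exists_le_coatom (Subgroup.closure ({a} : Set G))).resolve_left hne
    have hnor : M.Normal :=
      Subgroup.NormalizerCondition.normal_of_coatom M Group.normalizerCondition_of_isNilpotent hM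
    have hnt : Nontrivial (G ⧸ M) := by
      rw [QuotientGroup.nontrivial_iff]
      exact hM.1
    have hpQ : IsPGroup p (G ⧸ M) := hp.to_quotient M
    have hcen : Nontrivial (Subgroup.center (G ⧸ M)) := hpQ.center_nontrivial
    have hZ : (Subgroup.center (G ⧸ M)).comap (QuotientGroup.mk' M) = ⊤ := by
      refine hM.2 _ (lt_of_le_of_ne ?_ ?_)
      · intro g hg
        rw [Subgroup.mem_comap]
        have : QuotientGroup.mk' M g = 1 := (QuotientGroup.eq_one_iff g).2 hg
        rw [this]
        exact Subgroup.one_mem _
      · intro h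
        obtain ⟨z, hz⟩ := exists_ne (1 : Subgroup.center (G ⧸ M))
        obtain ⟨g, hg⟩ := QuotientGroup.mk'_surjective M (z : G ⧸ M)
        have h1 : g ∈ (Subgroup.center (G ⧸ M)).comap (QuotientGroup.mk' M) := by
          rw [Subgroup.mem_comap, hg]
          exact z.2
        rw [← h] at h1
        have h2 : QuotientGroup.mk' M g = 1 := (QuotientGroup.eq_one_iff g).2 h1
        apply hz
        apply Subtype.ext
        rw [← hg, h2]
        rfl
    have hcom : commutator G ≤ M := by
      rw [commutator_def, Subgroup.commutator_le]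
      intro x _ y _
      have hx : x ∈ (Subgroup.center (G ⧸ M)).comap (QuotientGroup.mk' M) := by
        rw [hZ]; exact Subgroup.mem_top x
      rw [Subgroup.mem_comap, Subgroup.mem_center_iff] at hx
      rw [← QuotientGroup.eq_one_iff]
      have h3 := hx (QuotientGroup.mk' M y)
      change QuotientGroup.mk' M ⁅x, y⁆ = 1
      rw [map_commutatorElement]
      exact commutatorElement_eq_one_iff_mul_comm.2 h3.symm
    have : (⊤ : Subgroup G) ≤ M := by
      rw [← htop]
      exact sup_le haM hcom
    exact hM.1 (top_le_iff.1 this)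
  apply hnc
  intro x y
  have hx : x ∈ Subgroup.closure ({a} : Set G) := by rw [hcl]; exact Subgroup.mem_top x
  have hy : y ∈ Subgroup.closure ({a} : Set G) := by rw [hcl]; exact Subgroup.mem_top y
  rw [Subgroup.mem_closure_singleton] at hx hy
  obtain ⟨m, rfl⟩ := hx
  obtain ⟨n, rfl⟩ := hy
  rw [← zpow_add, ← zpow_add, add_comm]

end Pool.Agent.Q83.RP
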