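import Mathlib
set_option autoImplicit false

/-! Elementary inequalities for moments between the second and the fourth one. -/

namespace Pool.Agent.Q83.RP

open MeasureTheory Set
open scoped ENNReal

/-- a power between the second and the fourth one -/
theorem pow_mid (t l : ℝ≥0∞) (hl0 : l ≠ 0) (hl : l ≠ ⊤) (q : ℝ) (h2 : 2 ≤ q) (h4 : q ≤ 4) :
    t ^ q ≤ l ^ (q - 2) * t ^ 2 + l ^ (q - 4) * t ^ 4 := by
  rcases le_or_gt t l with h | h
  · refine le_trans ?_ le_self_add
    have e : t ^ q = t ^ (q - 2) * t ^ 2 := by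
      rw [← ENNReal.rpow_natCast, ← ENNReal.rpow_add_of_nonneg _ _ (by linarith) (by norm_num)]
      congr 1
      push_cast
      ring
    rw [e]
    exact mul_le_mul' (ENNReal.rpow_le_rpow h (by linarith)) le_rfl
  · refine le_trans ?_ le_add_self
    have ht0 : t ≠ 0 := (lt_of_le_of_lt zero_le h).ne'
    rcases eq_or_ne t ⊤ with ht | ht
    · rw [ht]
      have e1 : (⊤ : ℝ≥0∞) ^ 4 = ⊤ := ENNReal.top_pow (by norm_num)
      rw [e1, ENNReal.mul_top]
      · exact le_top
      · exact (ENNReal.rpow_pos (pos_iff_ne_zero.2 hl0) hl).ne'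
    · have e : t ^ q = t ^ (q - 4) * t ^ 4 := by
        rw [← ENNReal.rpow_natCast, ← ENNReal.rpow_add _ _ ht0 ht]
        congr 1
        push_cast
        ring
      rw [e]
      refine mul_le_mul' ?_ le_rfl
      have e1 : ∀ x : ℝ≥0∞, x ^ (q - 4) = (x ^ (4 - q))⁻¹ := by
        intro x
        rw [← ENNReal.rpow_neg]
        congr 1
        ring
      rw [e1, e1, ENNReal.inv_le_inv]
      exact ENNReal.rpow_le_rpow h.le (by linarith)

/-- a power between zero and one -/
theorem pow_low (t l : ℝ≥0∞) (hl0 : l ≠ 0) (hl : l ≠ ⊤) (s : ℝ) (h0 : 0 ≤ s) (h1 : s ≤ 1) :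
    t ^ s ≤ l ^ s + l ^ (s - 1) * t := by
  rcases le_or_gt t l with h | h
  · exact (ENNReal.rpow_le_rpow h h0).trans le_self_add
  · refine le_trans ?_ le_add_self
    have ht0 : t ≠ 0 := (lt_of_le_of_lt zero_le h).ne'
    rcases eq_or_ne t ⊤ with ht | ht
    · rw [ht, ENNReal.mul_top]
      · exact le_top
      · exact (ENNReal.rpow_pos (pos_iff_ne_zero.2 hl0) hl).ne'
    · have e : t ^ s = t ^ (s - 1) * t := by
        conv_rhs => rw [← ENNReal.rpow_one t, ← ENNReal.rpow_mul, one_mul]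
        rw [← ENNReal.rpow_add _ _ ht0 ht]
        congr 1
        ring
      rw [e]
      refine mul_le_mul' ?_ le_rfl
      have e1 : ∀ x : ℝ≥0∞, x ^ (s - 1) = (x ^ (1 - s))⁻¹ := by
        intro x
        rw [← ENNReal.rpow_neg]
        congr 1
        ring
      rw [e1, e1, ENNReal.inv_le_inv]
      exact ENNReal.rpow_le_rpow h.le (by linarith)

/-- subadditivity of small powers -/
theorem pow_sub (a b : ℝ≥0∞) (s : ℝ) (h0 : 0 ≤ s) (h1 : s ≤ 1) :
    (a + b) ^ s ≤ a ^ s + b ^ s := ENNReal.rpow_add_le_add_rpow _ _ h0 h1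

/-- moments of order between one and two of a sum of nonnegative pairwise uncorrelated
variables -/
theorem pair {Ω ι : Type*} [MeasurableSpace Ω] [Fintype ι] (P : Measure Ω)
    [IsProbabilityMeasure P] (Z : ι → Ω → ℝ≥0∞) (hZ : ∀ i, Measurable (Z i))
    (hp : ∀ i j, i ≠ j → ∫⁻ w, Z i w * Z j w ∂P = (∫⁻ w, Z i w ∂P) * ∫⁻ w, Z j w ∂P)
    (l : ℝ≥0∞) (hl : l ≠ ⊤) (hS : ∑ i, ∫⁻ w, Z i w ∂P ≤ l) (p : ℝ) (h1 : 1 ≤ p) (h2 : p ≤ 2) :
    ∫⁻ w, (∑ i, Z i w) ^ p ∂P ≤ ∑ i, ∫⁻ w, Z i w ^ p ∂P +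
      2 * (l ^ (p - 1) * ∑ i, ∫⁻ w, Z i w ∂P) := by
  classical
  rcases eq_or_ne l 0 with hl0 | hl0
  · -- everything vanishes
    have h0 : ∑ i, ∫⁻ w, Z i w ∂P = 0 := le_antisymm (hS.trans hl0.le) zero_le
    have h3 : ∀ i, ∀ᵐ w ∂P, Z i w = 0 := by
      intro i
      have h4 : ∫⁻ w, Z i w ∂P = 0 := by
        have := Finset.sum_eq_zero_iff.1 h0 i (Finset.mem_univ i)
        exact this
      exact (lintegral_eq_zero_iff (hZ i)).1 h4
    have h5 : ∫⁻ w, (∑ i, Z i w) ^ p ∂P = 0 := by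
      rw [lintegral_eq_zero_iff ((Finset.measurable_fun_sum _ fun i _ => hZ i).pow_const p)]
      have h6 := ae_all_iff.2 h3
      filter_upwards [h6] with w hw
      simp only [hw, Finset.sum_const_zero, Pi.zero_apply]
      exact ENNReal.zero_rpow_of_pos (by linarith)
    rw [h5]
    exact zero_le
  have hm : ∀ i, Measurable fun w => ∑ j ∈ Finset.univ.erase i, Z j w := fun i =>
    Finset.measurable_fun_sum _ fun j _ => hZ j
  have key : ∀ i w, Z i w * (∑ j, Z j w) ^ (p - 1) ≤ Z i w ^ p + (l ^ (p - 1) * Z i w +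
      l ^ (p - 2) * (Z i w * ∑ j ∈ Finset.univ.erase i, Z j w)) := by
    intro i w
    have e : ∑ j, Z j w = Z i w + ∑ j ∈ Finset.univ.erase i, Z j w :=
      (Finset.add_sum_erase _ _ (Finset.mem_univ i)).symm
    rw [e]
    calc Z i w * (Z i w + ∑ j ∈ Finset.univ.erase i, Z j w) ^ (p - 1)
        ≤ Z i w * (Z i w ^ (p - 1) + (l ^ (p - 1) +
            l ^ (p - 1 - 1) * ∑ j ∈ Finset.univ.erase i, Z j w)) := by
          refine mul_le_mul' le_rfl ((pow_sub _ _ _ (by linarith) (by linarith)).trans ?_)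
          exact add_le_add le_rfl (pow_low _ _ hl0 hl _ (by linarith) (by linarith))
      _ = Z i w ^ p + (l ^ (p - 1) * Z i w +
            l ^ (p - 2) * (Z i w * ∑ j ∈ Finset.univ.erase i, Z j w)) := by
          have e2 : Z i w * Z i w ^ (p - 1) = Z i w ^ p := by
            conv_lhs => rw [← ENNReal.rpow_one (Z i w), ← ENNReal.rpow_mul, one_mul]
            rw [← ENNReal.rpow_add_of_nonneg _ _ (by norm_num) (by linarith)]
            congr 1
            ring
          rw [mul_add, e2, show p - 1 - 1 = p - 2 by ring]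
          ring
  have e3 : ∀ w, (∑ i, Z i w) ^ p = ∑ i, Z i w * (∑ j, Z j w) ^ (p - 1) := by
    intro w
    rw [← Finset.sum_mul]
    conv_rhs => rw [← ENNReal.rpow_one (∑ i, Z i w), ← ENNReal.rpow_mul, one_mul]
    rw [← ENNReal.rpow_add_of_nonneg _ _ (by norm_num) (by linarith)]
    congr 1
    ring
  calc ∫⁻ w, (∑ i, Z i w) ^ p ∂P
      ≤ ∫⁻ w, ∑ i, (Z i w ^ p + (l ^ (p - 1) * Z i w +
          l ^ (p - 2) * ∑ j ∈ Finset.univ.erase i, Z i w * Z j w)) ∂P := by
        refine lintegral_mono fun w => ?_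
        rw [e3]
        refine Finset.sum_le_sum fun i _ => ?_
        rw [← Finset.mul_sum]
        exact key i w
    _ = ∑ i, (∫⁻ w, Z i w ^ p ∂P + (l ^ (p - 1) * ∫⁻ w, Z i w ∂P +
          l ^ (p - 2) * ∑ j ∈ Finset.univ.erase i, (∫⁻ w, Z i w ∂P) * ∫⁻ w, Z j w ∂P)) := by
        rw [lintegral_finsetSum _ fun i _ => by fun_prop]
        refine Finset.sum_congr rfl fun i _ => ?_
        rw [lintegral_add_left ((hZ i).pow_const p), lintegral_add_left ((hZ i).const_mul _),
          lintegral_const_mul _ (hZ i), lintegral_const_mul _ (by fun_prop),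
          lintegral_finsetSum (f := fun j w => Z i w * Z j w) _ fun j _ => (hZ i).mul (hZ j)]
        congr 3
        refine Finset.sum_congr rfl fun j hj => ?_
        exact hp i j (Finset.ne_of_mem_erase hj).symm
    _ ≤ ∑ i, (∫⁻ w, Z i w ^ p ∂P + (l ^ (p - 1) * ∫⁻ w, Z i w ∂P +
          l ^ (p - 2) * ((∫⁻ w, Z i w ∂P) * l))) := by
        refine Finset.sum_le_sum fun i _ => ?_
        refine add_le_add le_rfl (add_le_add le_rfl (mul_le_mul' le_rfl ?_))
        rw [← Finset.mul_sum]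
        refine mul_le_mul' le_rfl (le_trans ?_ hS)
        exact Finset.sum_le_sum_of_subset (Finset.erase_subset _ _)
    _ = _ := by
        have e4 : l ^ (p - 2) * l = l ^ (p - 1) := by
          conv_lhs => rw [← ENNReal.rpow_one l, ← ENNReal.rpow_mul, one_mul]
          rw [← ENNReal.rpow_add _ _ hl0 hl]
          congr 1
          ring
        have e5 : ∀ i, ∫⁻ w, Z i w ^ p ∂P + (l ^ (p - 1) * ∫⁻ w, Z i w ∂P +
            l ^ (p - 2) * ((∫⁻ w, Z i w ∂P) * l)) =
            ∫⁻ w, Z i w ^ p ∂P + 2 * (l ^ (p - 1) * ∫⁻ w, Z i w ∂P) := by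
          intro i
          have : l ^ (p - 2) * ((∫⁻ w, Z i w ∂P) * l) = l ^ (p - 1) * ∫⁻ w, Z i w ∂P := by
            rw [← e4]; ring
          rw [this]
          ring
        simp only [e5]
        rw [Finset.sum_add_distrib, ← Finset.mul_sum, ← Finset.mul_sum]

end Pool.Agent.Q83.RP
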