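import Mathlib
import Pool.Agent.Q83.RP.A
set_option autoImplicit false

/-! Phases `exp(2 π i s k_j)` with `k_j` a Sidon sequence: moments between the second and the
fourth one. -/

namespace Pool.Agent.Q83.RP

open MeasureTheory Set Complex
open scoped ENNReal

/-- the phase -/
noncomputable def ch (k : ℤ) (s : ℝ) : ℂ := Complex.exp ((2 * Real.pi * (k * s) : ℝ) * I)

theorem ch_norm (k : ℤ) (s : ℝ) : ‖ch k s‖ = 1 := Complex.norm_exp_ofReal_mul_I _

theorem ch_cont (k : ℤ) : Continuous (ch k) := by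
  unfold ch
  fun_prop

theorem ch_add (k l : ℤ) (s : ℝ) : ch (k + l) s = ch k s * ch l s := by
  unfold ch
  rw [← Complex.exp_add]
  congr 1
  push_cast
  ring

theorem ch_conj (k l : ℤ) (s : ℝ) : ch k s * (starRingEnd ℂ) (ch l s) = ch (k - l) s := by
  unfold ch
  rw [← Complex.exp_conj, ← Complex.exp_add]
  congr 1
  simp only [map_mul, Complex.conj_ofReal, Complex.conj_I]
  push_cast
  ring

theorem ch_int (m : ℤ) : ∫ s in Ico (0 : ℝ) 1, ch m s = if m = 0 then 1 else 0 := by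
  rw [integral_Ico_eq_integral_Ioc, ← intervalIntegral.integral_of_le zero_le_one]
  by_cases hm : m = 0
  · simp [hm, ch]
  · rw [if_neg hm]
    have hm' : (m : ℂ) ≠ 0 := by exact_mod_cast hm
    have hc : (2 * Real.pi * m * I : ℂ) ≠ 0 := by
      have := Real.pi_ne_zero
      simp [hm', this]
    have e : ∀ s : ℝ, ch m s = Complex.exp ((2 * Real.pi * m * I : ℂ) * s) := by
      intro s
      unfold ch
      congr 1
      push_cast
      ring
    simp only [e]
    rw [integral_exp_mul_complex hc]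
    have e1 : Complex.exp ((2 * Real.pi * m * I : ℂ) * ((1 : ℝ) : ℂ)) = 1 := by
      rw [Complex.exp_eq_one_iff]
      exact ⟨m, by push_cast; ring⟩
    rw [e1]
    simp

theorem quad {κ : Type*} [Fintype κ] (b : κ → ℂ) (K : κ → ℤ) :
    ∫⁻ s in Ico (0 : ℝ) 1, ‖∑ p, b p * ch (K p) s‖ₑ ^ 2 ≤
      ENNReal.ofReal (∑ p, ∑ p', if K p = K p' then ‖b p‖ * ‖b p'‖ else 0) := by
  have hcont : Continuous fun s : ℝ => ∑ p, b p * ch (K p) s := by
    refine continuous_finsetSum _ fun p _ => continuous_const.mul (ch_cont _)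
  have hint : Integrable (fun s : ℝ => ‖∑ p, b p * ch (K p) s‖ ^ 2)
      (volume.restrict (Ico (0 : ℝ) 1)) := by
    have : IntegrableOn (fun s : ℝ => ‖∑ p, b p * ch (K p) s‖ ^ 2) (Icc (0 : ℝ) 1) :=
      (hcont.norm.pow 2).continuousOn.integrableOn_compact isCompact_Icc
    exact this.mono_set Ico_subset_Icc_self
  have e1 : ∫⁻ s in Ico (0 : ℝ) 1, ‖∑ p, b p * ch (K p) s‖ₑ ^ 2 =
      ENNReal.ofReal (∫ s in Ico (0 : ℝ) 1, ‖∑ p, b p * ch (K p) s‖ ^ 2) := by
    rw [ofReal_integral_eq_lintegral_ofReal hint (Filter.Eventually.of_forall fun _ => by positivity)]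
    refine lintegral_congr fun s => ?_
    rw [← ofReal_norm, ENNReal.ofReal_pow (norm_nonneg _)]
  rw [e1]
  apply ENNReal.ofReal_le_ofReal
  have e2 : ((∫ s in Ico (0 : ℝ) 1, ‖∑ p, b p * ch (K p) s‖ ^ 2 : ℝ) : ℂ) =
      ∑ p, ∑ p', b p * (starRingEnd ℂ) (b p') * (if K p - K p' = 0 then 1 else 0) := by
    rw [← integral_complex_ofReal]
    have h1 : ∀ s : ℝ, ((‖∑ p, b p * ch (K p) s‖ ^ 2 : ℝ) : ℂ) =
        ∑ p, ∑ p', b p * (starRingEnd ℂ) (b p') * ch (K p - K p') s := by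
      intro s
      push_cast
      rw [← Complex.mul_conj', map_sum, Finset.sum_mul_sum]
      refine Finset.sum_congr rfl fun p _ => Finset.sum_congr rfl fun p' _ => ?_
      rw [map_mul, ← ch_conj]
      ring
    simp only [h1]
    rw [integral_finsetSum _ fun p _ => ?_]
    · refine Finset.sum_congr rfl fun p _ => ?_
      rw [integral_finsetSum _ fun p' _ => ?_]
      · refine Finset.sum_congr rfl fun p' _ => ?_
        rw [integral_const_mul, ch_int]
      · exact ((continuous_const.mul (ch_cont _)).continuousOn.integrableOn_compact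
          isCompact_Icc).mono_set Ico_subset_Icc_self
    · exact ((continuous_finsetSum _ fun p' _ => continuous_const.mul
        (ch_cont _)).continuousOn.integrableOn_compact isCompact_Icc).mono_set Ico_subset_Icc_self
  have h0 : 0 ≤ ∫ s in Ico (0 : ℝ) 1, ‖∑ p, b p * ch (K p) s‖ ^ 2 :=
    integral_nonneg fun _ => by positivity
  have e3 : ∫ s in Ico (0 : ℝ) 1, ‖∑ p, b p * ch (K p) s‖ ^ 2 =
      ‖((∫ s in Ico (0 : ℝ) 1, ‖∑ p, b p * ch (K p) s‖ ^ 2 : ℝ) : ℂ)‖ := by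
    rw [Complex.norm_real, Real.norm_of_nonneg h0]
  rw [e3, e2]
  refine (norm_sum_le _ _).trans (Finset.sum_le_sum fun p _ => ?_)
  refine (norm_sum_le _ _).trans (Finset.sum_le_sum fun p' _ => ?_)
  rw [norm_mul, norm_mul, RCLike.norm_conj]
  by_cases h : K p = K p'
  · simp [h]
  · rw [if_neg h, if_neg (sub_ne_zero.2 h)]
    simp

/-- Sidon sequences of integers: sums of two terms determine the terms -/
def Sidon {N : ℕ} (k : Fin N → ℤ) : Prop :=
  ∀ a b c d, k a + k b = k c + k d → (a = c ∧ b = d) ∨ (a = d ∧ b = c)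

theorem Sidon.inj {N : ℕ} {k : Fin N → ℤ} (h : Sidon k) {a b : Fin N} (he : k a = k b) :
    a = b := by
  rcases h a a b b (by rw [he]) with h1 | h1
  · exact h1.1
  · exact h1.1

theorem two {N : ℕ} {k : Fin N → ℤ} (h : Sidon k) (a : Fin N → ℂ) :
    ∫⁻ s in Ico (0 : ℝ) 1, ‖∑ j, a j * ch (k j) s‖ₑ ^ 2 ≤ ∑ j, ‖a j‖ₑ ^ 2 := by
  refine (quad a k).trans ?_
  have e : ∀ p : Fin N, (∑ p', if k p = k p' then ‖a p‖ * ‖a p'‖ else 0) = ‖a p‖ ^ 2 := by
    intro p
    rw [Finset.sum_eq_single p]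
    · rw [if_pos rfl, sq]
    · intro b _ hb
      rw [if_neg fun hh => hb (h.inj hh).symm]
    · intro hh
      exact absurd (Finset.mem_univ p) hh
  simp only [e]
  rw [ENNReal.ofReal_sum_of_nonneg fun i _ => by positivity]
  refine Finset.sum_le_sum fun i _ => ?_
  rw [← ofReal_norm, ENNReal.ofReal_pow (norm_nonneg _)]

theorem four {N : ℕ} {k : Fin N → ℤ} (h : Sidon k) (a : Fin N → ℂ) :
    ∫⁻ s in Ico (0 : ℝ) 1, ‖∑ j, a j * ch (k j) s‖ₑ ^ 4 ≤ 2 * (∑ j, ‖a j‖ₑ ^ 2) ^ 2 := by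
  classical
  have e0 : ∀ s : ℝ, ‖∑ j, a j * ch (k j) s‖ₑ ^ 4 =
      ‖∑ p : Fin N × Fin N, (a p.1 * a p.2) * ch (k p.1 + k p.2) s‖ₑ ^ 2 := by
    intro s
    have : ∑ p : Fin N × Fin N, (a p.1 * a p.2) * ch (k p.1 + k p.2) s =
        (∑ j, a j * ch (k j) s) ^ 2 := by
      rw [sq, Finset.sum_mul_sum, ← Finset.sum_product', Finset.univ_product_univ]
      refine Finset.sum_congr rfl fun p _ => ?_
      rw [ch_add]
      ring
    rw [this, enorm_pow]
    ring
  simp only [e0]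
  refine (quad (fun p : Fin N × Fin N => a p.1 * a p.2) fun p => k p.1 + k p.2).trans ?_
  have e1 : ∀ p : Fin N × Fin N, (∑ p' : Fin N × Fin N, if k p.1 + k p.2 = k p'.1 + k p'.2 then
      ‖a p.1 * a p.2‖ * ‖a p'.1 * a p'.2‖ else 0) ≤ 2 * (‖a p.1‖ ^ 2 * ‖a p.2‖ ^ 2) := by
    intro p
    have h1 : ∀ p' : Fin N × Fin N, (if k p.1 + k p.2 = k p'.1 + k p'.2 then
        ‖a p.1 * a p.2‖ * ‖a p'.1 * a p'.2‖ else 0) ≤
        (if p' = p then ‖a p.1‖ ^ 2 * ‖a p.2‖ ^ 2 else 0) +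
        (if p' = p.swap then ‖a p.1‖ ^ 2 * ‖a p.2‖ ^ 2 else 0) := by
      intro p'
      have hp : 0 ≤ ‖a p.1‖ ^ 2 * ‖a p.2‖ ^ 2 := by positivity
      split_ifs with g1 g2 g3 g3
      · rw [norm_mul, norm_mul, g2]; nlinarith [norm_nonneg (a p.1), norm_nonneg (a p.2)]
      · rw [norm_mul, norm_mul, g2]; nlinarith [norm_nonneg (a p.1), norm_nonneg (a p.2)]
      · rw [norm_mul, norm_mul, g3]
        simp only [Prod.fst_swap, Prod.snd_swap]
        nlinarith [norm_nonneg (a p.1), norm_nonneg (a p.2)]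
      · exfalso
        rcases h _ _ _ _ g1 with h2 | h2
        · exact g2 (Prod.ext h2.1.symm h2.2.symm)
        · exact g3 (Prod.ext h2.2.symm h2.1.symm)
      all_goals linarith
    refine (Finset.sum_le_sum fun p' _ => h1 p').trans (le_of_eq ?_)
    rw [Finset.sum_add_distrib, Finset.sum_ite_eq' , Finset.sum_ite_eq']
    simp only [Finset.mem_univ, if_true]
    ring
  calc ENNReal.ofReal (∑ p : Fin N × Fin N, ∑ p' : Fin N × Fin N,
        if k p.1 + k p.2 = k p'.1 + k p'.2 then ‖a p.1 * a p.2‖ * ‖a p'.1 * a p'.2‖ else 0)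
      ≤ ENNReal.ofReal (2 * (∑ j, ‖a j‖ ^ 2) ^ 2) := by
        apply ENNReal.ofReal_le_ofReal
        refine (Finset.sum_le_sum fun p _ => e1 p).trans (le_of_eq ?_)
        rw [← Finset.mul_sum, sq (∑ j, ‖a j‖ ^ 2), Finset.sum_mul_sum, ← Finset.sum_product',
          Finset.univ_product_univ]
    _ = 2 * (∑ j, ‖a j‖ₑ ^ 2) ^ 2 := by
        rw [ENNReal.ofReal_mul (by norm_num), ENNReal.ofReal_pow (by positivity),
          ENNReal.ofReal_sum_of_nonneg fun i _ => by positivity]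
        congr 1
        · simp
        · congr 1
          refine Finset.sum_congr rfl fun i _ => ?_
          rw [← ofReal_norm, ENNReal.ofReal_pow (norm_nonneg _)]

/-- moments between the second and the fourth one -/
theorem phases {N : ℕ} {k : Fin N → ℤ} (h : Sidon k) (a : Fin N → ℂ) (q : ℝ) (h2 : 2 ≤ q)
    (h4 : q ≤ 4) :
    ∫⁻ s in Ico (0 : ℝ) 1, ‖∑ j, a j * ch (k j) s‖ₑ ^ q ≤ 3 * (∑ j, ‖a j‖ₑ ^ 2) ^ (q / 2) := by
  set S : ℝ≥0∞ := ∑ j, ‖a j‖ₑ ^ 2 with hS
  have hSt : S ≠ ⊤ := by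
    rw [hS]
    exact (ENNReal.sum_lt_top.2 fun j _ => ENNReal.pow_lt_top enorm_lt_top).ne
  have hmeas : Measurable fun s : ℝ => ‖∑ j, a j * ch (k j) s‖ₑ :=
    (continuous_finsetSum _ fun p _ => continuous_const.mul (ch_cont _)).measurable.enorm
  rcases eq_or_ne S 0 with h0 | h0
  · have h1 : ∀ j, a j = 0 := by
      intro j
      have := (Finset.sum_eq_zero_iff.1 h0) j (Finset.mem_univ j)
      simpa using this
    simp only [h1, zero_mul, Finset.sum_const_zero, enorm_zero]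
    rw [ENNReal.zero_rpow_of_pos (by linarith), lintegral_zero]
    exact zero_le
  set l : ℝ≥0∞ := S ^ (1 / 2 : ℝ) with hl
  have hl0 : l ≠ 0 := (ENNReal.rpow_pos (pos_iff_ne_zero.2 h0) hSt).ne'
  have hlt : l ≠ ⊤ := ENNReal.rpow_ne_top_of_nonneg (by norm_num) hSt
  calc ∫⁻ s in Ico (0 : ℝ) 1, ‖∑ j, a j * ch (k j) s‖ₑ ^ q
      ≤ ∫⁻ s in Ico (0 : ℝ) 1, (l ^ (q - 2) * ‖∑ j, a j * ch (k j) s‖ₑ ^ 2 +
          l ^ (q - 4) * ‖∑ j, a j * ch (k j) s‖ₑ ^ 4) :=
        lintegral_mono fun s => pow_mid _ _ hl0 hlt q h2 h4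
    _ = l ^ (q - 2) * (∫⁻ s in Ico (0 : ℝ) 1, ‖∑ j, a j * ch (k j) s‖ₑ ^ 2) +
          l ^ (q - 4) * ∫⁻ s in Ico (0 : ℝ) 1, ‖∑ j, a j * ch (k j) s‖ₑ ^ 4 := by
        rw [lintegral_add_left ((hmeas.pow_const 2).const_mul _),
          lintegral_const_mul _ (hmeas.pow_const 2), lintegral_const_mul _ (hmeas.pow_const 4)]
    _ ≤ l ^ (q - 2) * S + l ^ (q - 4) * (2 * S ^ 2) :=
        add_le_add (mul_le_mul' le_rfl (two h a)) (mul_le_mul' le_rfl (four h a))
    _ = 3 * S ^ (q / 2) := by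
        have e1 : l ^ (q - 2) * S = S ^ (q / 2) := by
          rw [hl, ← ENNReal.rpow_mul]
          conv_lhs => rw [← ENNReal.rpow_one S, ← ENNReal.rpow_mul, one_mul]
          rw [← ENNReal.rpow_add _ _ h0 hSt]
          congr 1
          ring
        have e2 : l ^ (q - 4) * S ^ 2 = S ^ (q / 2) := by
          rw [hl, ← ENNReal.rpow_mul, ← ENNReal.rpow_natCast, ← ENNReal.rpow_add _ _ h0 hSt]
          congr 1
          push_cast
          ring
        rw [e1, mul_left_comm, e2]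
        ring

end Pool.Agent.Q83.RP
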