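import Mathlib
set_option autoImplicit false

/-! The maps `t ↦ frac (m t + c)` preserve Lebesgue measure on the unit cube; pairwise
independence of the points `frac (u + k v)`. -/

namespace Pool.Agent.Q83.RP

open MeasureTheory Set
open scoped ENNReal

/-- Lebesgue measure on `[0,1)` -/
noncomputable def m1 : Measure ℝ := volume.restrict (Ico (0 : ℝ) 1)

instance : IsProbabilityMeasure m1 := ⟨by simp [m1]⟩

theorem mp1 (m : ℤ) (hm : m ≠ 0) (c : ℝ) :
    MeasurePreserving (fun t : ℝ => Int.fract ((m : ℝ) * t + c)) m1 m1 := by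
  have hmeas : Measurable (fun t : ℝ => Int.fract ((m : ℝ) * t + c)) :=
    measurable_fract.comp ((measurable_const.mul measurable_id).add_const c)
  refine ⟨hmeas, ?_⟩
  ext s hs
  rw [Measure.map_apply hmeas hs]
  set U : UnitAddCircle → ℝ :=
    fun x => ((AddCircle.equivIco (1:ℝ) 0 x : Set.Ico (0:ℝ) (0+1)) : ℝ) with hU
  have hU1 : ∀ t : ℝ, U (t : UnitAddCircle) = Int.fract t := by
    intro t
    have := AddCircle.coe_equivIco_mk_apply (1:ℝ) t
    simp only [hU]
    simp
  have hUm : Measurable U :=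
    measurable_subtype_coe.comp (AddCircle.measurableEquivIco 1 0).measurable
  have hmk0 := UnitAddCircle.measurePreserving_mk 0
  rw [zero_add] at hmk0
  have hres : (volume.restrict (Ioc (0 : ℝ) 1)) = m1 := by
    unfold m1
    exact (Measure.restrict_congr_set Ico_ae_eq_Ioc).symm
  have hmk : MeasurePreserving (fun t : ℝ => (t : UnitAddCircle)) m1 volume := by
    rw [← hres]; exact hmk0
  have hz0 : MeasurePreserving (fun x : UnitAddCircle => m • x) volume volume :=
    Measure.measurePreserving_zsmul volume hm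
  have hz : MeasurePreserving (fun x : UnitAddCircle => m • x + (c : UnitAddCircle))
      volume volume :=
    (measurePreserving_add_right volume (c : UnitAddCircle)).comp hz0
  have h1 : m1 ((fun t : ℝ => Int.fract ((m : ℝ) * t + c)) ⁻¹' s) = volume (U ⁻¹' s) := by
    rw [← hz.measure_preimage (hUm hs).nullMeasurableSet,
      ← hmk.measure_preimage (hz.measurable (hUm hs)).nullMeasurableSet]
    congr 1
    ext t
    simp only [mem_preimage]
    have : m • (t : UnitAddCircle) + (c : UnitAddCircle) =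
        (((m : ℝ) * t + c : ℝ) : UnitAddCircle) := by
      rw [AddCircle.coe_add, ← zsmul_eq_mul, AddCircle.coe_zsmul]
    rw [this, hU1]
  have h2 : m1 s = volume (U ⁻¹' s) := by
    rw [← hmk.measure_preimage (hUm hs).nullMeasurableSet]
    apply measure_congr
    have hae : ∀ᵐ t ∂m1, t ∈ Ico (0 : ℝ) 1 := ae_restrict_mem measurableSet_Ico
    filter_upwards [hae] with t ht
    have e : (s t) = ((((fun x : ℝ => (x : UnitAddCircle)) ⁻¹' (U ⁻¹' s))) t) := by
      change (t ∈ s) = (U (t : UnitAddCircle) ∈ s)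
      rw [hU1, Int.fract_eq_self.2 ht]
    exact e
  rw [h1, h2]

/-- the unit cube -/
def cube (n : ℕ) : Set (Fin n → ℝ) := univ.pi fun _ => Ico (0 : ℝ) 1

theorem cube_meas (n : ℕ) : MeasurableSet (cube n) :=
  MeasurableSet.univ_pi fun _ => measurableSet_Ico

/-- Lebesgue measure on the unit cube -/
noncomputable def mc (n : ℕ) : Measure (Fin n → ℝ) := volume.restrict (cube n)

theorem mc_eq (n : ℕ) : mc n = Measure.pi fun _ : Fin n => m1 := by
  unfold mc cube m1
  rw [volume_pi, Measure.restrict_pi_pi]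

instance (n : ℕ) : IsProbabilityMeasure (mc n) := by
  rw [mc_eq]; infer_instance

/-- the fractional part of `m v + c`, coordinate by coordinate -/
noncomputable def fr {n : ℕ} (m : ℤ) (v c : Fin n → ℝ) : Fin n → ℝ :=
  fun i => Int.fract ((m : ℝ) * v i + c i)

theorem mpn {n : ℕ} (m : ℤ) (hm : m ≠ 0) (c : Fin n → ℝ) :
    MeasurePreserving (fun v => fr m v c) (mc n) (mc n) := by
  rw [mc_eq]
  exact measurePreserving_pi (fun _ => m1) (fun _ => m1) (fun i => mp1 m hm (c i))

/-- the displacement: fractional part of `u + k v` -/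
noncomputable def dis {n : ℕ} (k : ℤ) (u v : Fin n → ℝ) : Fin n → ℝ :=
  fun i => Int.fract (u i + (k : ℝ) * v i)

theorem dis_meas {n : ℕ} (k : ℤ) :
    Measurable fun p : (Fin n → ℝ) × (Fin n → ℝ) => dis k p.1 p.2 := by
  unfold dis
  refine measurable_pi_lambda _ fun i => measurable_fract.comp ?_
  fun_prop

theorem dis_mem {n : ℕ} (k : ℤ) (u v : Fin n → ℝ) : dis k u v ∈ cube n := fun _ _ =>
  ⟨Int.fract_nonneg _, Int.fract_lt_one _⟩

theorem dis_mp {n : ℕ} (k : ℤ) (v : Fin n → ℝ) :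
    MeasurePreserving (fun u => dis k u v) (mc n) (mc n) := by
  have h := mpn (n := n) 1 one_ne_zero fun i => (k : ℝ) * v i
  have e : (fun u => fr 1 u fun i => (k : ℝ) * v i) = fun u : Fin n → ℝ => dis k u v := by
    funext u i
    simp [fr, dis]
  rw [e] at h
  exact h

theorem dis_one {n : ℕ} (k : ℤ) (φ : (Fin n → ℝ) → ℝ≥0∞) (hφ : Measurable φ) :
    ∫⁻ p, φ (dis k p.1 p.2) ∂((mc n).prod (mc n)) = ∫⁻ u, φ u ∂(mc n) := by
  rw [lintegral_prod_symm (fun p : (Fin n → ℝ) × (Fin n → ℝ) => φ (dis k p.1 p.2))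
    (hφ.comp (dis_meas k)).aemeasurable]
  have : ∀ v, ∫⁻ u, φ (dis k u v) ∂(mc n) = ∫⁻ u, φ u ∂(mc n) := fun v =>
    (dis_mp k v).lintegral_comp hφ
  simp only [this, lintegral_const, measure_univ, mul_one]

theorem dis_two {n : ℕ} (k l : ℤ) (hkl : k ≠ l) (φ ψ : (Fin n → ℝ) → ℝ≥0∞) (hφ : Measurable φ)
    (hψ : Measurable ψ) :
    ∫⁻ p, φ (dis k p.1 p.2) * ψ (dis l p.1 p.2) ∂((mc n).prod (mc n)) =
      (∫⁻ u, φ u ∂(mc n)) * ∫⁻ u, ψ u ∂(mc n) := by
  rw [lintegral_prod_symm (fun p : (Fin n → ℝ) × (Fin n → ℝ) => φ (dis k p.1 p.2) *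
    ψ (dis l p.1 p.2)) ((hφ.comp (dis_meas k)).mul (hψ.comp (dis_meas l))).aemeasurable]
  have e1 : ∀ (u v : Fin n → ℝ), dis l u v = fr (l - k) v (dis k u v) := by
    intro u v
    funext i
    unfold dis fr
    rw [Int.fract_eq_fract]
    refine ⟨⌊u i + (k : ℝ) * v i⌋, ?_⟩
    have := Int.self_sub_floor (u i + (k : ℝ) * v i)
    push_cast
    linarith
  have h2 : ∀ v : Fin n → ℝ, ∫⁻ u, φ (dis k u v) * ψ (dis l u v) ∂(mc n) =
      ∫⁻ u, φ u * ψ (fr (l - k) v u) ∂(mc n) := by
    intro v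
    simp only [e1]
    have hm : Measurable fun u : Fin n → ℝ => φ u * ψ (fr (l - k) v u) := by
      refine hφ.mul (hψ.comp ?_)
      unfold fr
      exact measurable_pi_lambda _ fun i => measurable_fract.comp (by fun_prop)
    exact (dis_mp k v).lintegral_comp hm
  simp only [h2]
  have hfr : Measurable fun p : (Fin n → ℝ) × (Fin n → ℝ) => fr (l - k) p.1 p.2 := by
    unfold fr
    exact measurable_pi_lambda _ fun i => measurable_fract.comp (by fun_prop)
  rw [lintegral_lintegral_swap ((hφ.comp measurable_snd).mul (hψ.comp hfr)).aemeasurable]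
  have h3 : ∀ u : Fin n → ℝ, ∫⁻ v, φ u * ψ (fr (l - k) v u) ∂(mc n) =
      φ u * ∫⁻ v, ψ v ∂(mc n) := by
    intro u
    have hmm : Measurable fun v : Fin n → ℝ => ψ (fr (l - k) v u) :=
      hψ.comp (hfr.comp (measurable_id.prodMk measurable_const))
    rw [lintegral_const_mul _ hmm]
    congr 1
    exact (mpn (l - k) (sub_ne_zero.2 hkl.symm) u).lintegral_comp hψ
  simp only [h3]
  rw [lintegral_mul_const _ hφ]

end Pool.Agent.Q83.RP
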