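import Mathlib
import Pool.Agent.Q83.RP.C
import Pool.Agent.H789R2.FR.L2
set_option autoImplicit false

/-! The Fourier transform of a bounded density on the sphere: the local `L²` estimate, and the
displacement of a function by a uniformly distributed vector. -/

namespace Pool.Agent.Q83.RP

open MeasureTheory Set Complex Metric
open scoped ENNReal RealInnerProductSpace
open Pool.Agent.H789R2.FR (sg sg_finite T L2_bound)

abbrev E (n : ℕ) := EuclideanSpace ℝ (Fin n)

/-- surface measure on the unit sphere -/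
noncomputable def sigma (n : ℕ) : Measure (sphere (0 : E n) 1) := (volume : Measure (E n)).toSphere

/-- the Fourier transform of the measure `g dσ` -/
noncomputable def ft {n : ℕ} (g : sphere (0 : E n) 1 → ℂ) (ξ : E n) : ℂ :=
  ∫ x, Complex.exp (-(2 * Real.pi * ⟪(x : E n), ξ⟫ : ℝ) * Complex.I) * g x ∂(sigma n)

instance (n : ℕ) : IsFiniteMeasure (sigma n) := by unfold sigma; infer_instance

variable {n : ℕ}

/-- extension of a function on the sphere by zero -/
noncomputable def ex (g : sphere (0 : E n) 1 → ℂ) : E n → ℂ :=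
  Function.extend Subtype.val g (fun _ => 0)

theorem emb (n : ℕ) : MeasurableEmbedding (Subtype.val : sphere (0 : E n) 1 → E n) :=
  MeasurableEmbedding.subtype_coe (isClosed_sphere.measurableSet)

theorem ex_val (g : sphere (0 : E n) 1 → ℂ) (x : sphere (0 : E n) 1) : ex g x = g x :=
  Subtype.val_injective.extend_apply _ _ _

theorem ex_meas (g : sphere (0 : E n) 1 → ℂ) (hg : Measurable g) : Measurable (ex g) :=
  (emb n).measurable_extend hg measurable_const

theorem ex_bd (g : sphere (0 : E n) 1 → ℂ) (M : ℝ) (hM0 : 0 ≤ M) (hM : ∀ x, ‖g x‖ ≤ M) (w : E n) :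
    ‖ex g w‖ ≤ M := by
  unfold ex
  by_cases h : ∃ a : sphere (0 : E n) 1, (a : E n) = w
  · obtain ⟨a, ha⟩ := h
    rw [← ha, Subtype.val_injective.extend_apply]
    exact hM a
  · rw [Function.extend_apply' _ _ _ h, norm_zero]
    exact hM0

theorem ft_eq (g : sphere (0 : E n) 1 → ℂ) (ξ : E n) : ft g ξ = T (ex g) ((2 * Real.pi) • ξ) := by
  unfold T ft sg
  rw [(emb n).integral_map]
  unfold sigma
  refine integral_congr_ae (Filter.Eventually.of_forall fun x => ?_)
  simp only
  rw [ex_val, real_inner_smul_left, real_inner_comm]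

theorem ft_meas (g : sphere (0 : E n) 1 → ℂ) (hg : Measurable g) : Measurable (ft g) := by
  have hfin := sg_finite n
  have h := (Pool.Agent.H789R2.FR.L2.measurable_T (ex g) (ex_meas g hg)).measurable
  have e : ft g = fun ξ => T (ex g) ((2 * Real.pi) • ξ) := funext fun ξ => ft_eq g ξ
  rw [e]
  exact h.comp (measurable_const_smul _)

theorem ft_bd (g : sphere (0 : E n) 1 → ℂ) (ξ : E n) : ‖ft g ξ‖ ≤ ∫ x, ‖g x‖ ∂(sigma n) := by
  unfold ft
  refine (norm_integral_le_integral_norm _).trans (le_of_eq ?_)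
  refine integral_congr_ae (Filter.Eventually.of_forall fun x => ?_)
  simp only
  rw [norm_mul, show -((2 * Real.pi * ⟪(x : E n), ξ⟫ : ℝ) : ℂ) * I =
    ((-(2 * Real.pi * ⟪(x : E n), ξ⟫) : ℝ) : ℂ) * I by push_cast; ring,
    Complex.norm_exp_ofReal_mul_I, one_mul]

/-- the local `L²` estimate for the operator `T` -/
theorem locT (n : ℕ) (hn : 2 ≤ n) : ∃ C : ℝ, 0 < C ∧ ∀ g : E n → ℂ, Measurable g →
    ∀ M : ℝ, (∀ x, ‖g x‖ ≤ M) → ∀ l : ℝ, 0 < l → ∀ u : E n,
    ∫⁻ x in closedBall u l, ‖T g x‖ₑ ^ 2 ≤ ENNReal.ofReal (C * l) * ∫⁻ w, ‖g w‖ₑ ^ 2 ∂(sg n) := by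
  obtain ⟨C, hC, h⟩ := L2_bound n hn
  refine ⟨Real.exp 1 * C, by positivity, ?_⟩
  intro g hg M hM l hl0 u
  have hfin := sg_finite n
  have h1 := h g hg ⟨M, hM⟩ l hl0 u
  have hTm : Measurable (T g) := (Pool.Agent.H789R2.FR.L2.measurable_T g hg).measurable
  have hTb := Pool.Agent.H789R2.FR.L2.norm_T_le g M hM
  have hint : Integrable fun x : E n => Real.exp (-‖x - u‖ ^ 2 / l ^ 2) * ‖T g x‖ ^ 2 := by
    have h2 : Integrable fun x : E n => Real.exp (-‖x - u‖ ^ 2 / l ^ 2) := by
      have := (Pool.Agent.H789R2.FR.L2.integrable_W (n := n) hl0).comp_sub_right u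
      exact this
    refine h2.mul_bdd (c := (M * (sg n).real univ) ^ 2) (hTm.norm.pow_const 2).aestronglyMeasurable
      (Filter.Eventually.of_forall fun x => ?_)
    rw [Real.norm_of_nonneg (by positivity)]
    exact pow_le_pow_left₀ (norm_nonneg _) (hTb x) 2
  have e1 : ∫⁻ w, ‖g w‖ₑ ^ 2 ∂(sg n) = ENNReal.ofReal (∫ w, ‖g w‖ ^ 2 ∂(sg n)) := by
    rw [ofReal_integral_eq_lintegral_ofReal]
    · refine lintegral_congr fun w => ?_
      rw [← ofReal_norm, ENNReal.ofReal_pow (norm_nonneg _)]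
    · refine Integrable.of_bound (hg.norm.pow_const 2).aestronglyMeasurable (M ^ 2)
        (Filter.Eventually.of_forall fun x => ?_)
      rw [Real.norm_of_nonneg (by positivity)]
      exact pow_le_pow_left₀ (norm_nonneg _) (hM x) 2
    · exact Filter.Eventually.of_forall fun x => by positivity
  rw [e1, ← ENNReal.ofReal_mul (by positivity)]
  calc ∫⁻ x in closedBall u l, ‖T g x‖ₑ ^ 2
      ≤ ∫⁻ x in closedBall u l, ENNReal.ofReal (Real.exp 1 *
        (Real.exp (-‖x - u‖ ^ 2 / l ^ 2) * ‖T g x‖ ^ 2)) := by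
        refine setLIntegral_mono' isClosed_closedBall.measurableSet fun x hx => ?_
        have h3 : ‖x - u‖ ≤ l := by
          rw [mem_closedBall, dist_eq_norm] at hx
          exact hx
        rw [← ofReal_norm, ← ENNReal.ofReal_pow (norm_nonneg _)]
        apply ENNReal.ofReal_le_ofReal
        have h4 : 1 ≤ Real.exp 1 * Real.exp (-‖x - u‖ ^ 2 / l ^ 2) := by
          rw [← Real.exp_add]
          apply Real.one_le_exp
          have : ‖x - u‖ ^ 2 / l ^ 2 ≤ 1 := by
            rw [div_le_one (by positivity)]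
            exact pow_le_pow_left₀ (norm_nonneg _) h3 2
          rw [neg_div]
          linarith
        have h5 : 0 ≤ ‖T g x‖ ^ 2 := by positivity
        nlinarith
    _ ≤ ∫⁻ x, ENNReal.ofReal (Real.exp 1 *
        (Real.exp (-‖x - u‖ ^ 2 / l ^ 2) * ‖T g x‖ ^ 2)) := setLIntegral_le_lintegral _ _
    _ = ENNReal.ofReal (∫ x, Real.exp 1 *
        (Real.exp (-‖x - u‖ ^ 2 / l ^ 2) * ‖T g x‖ ^ 2)) :=
        (ofReal_integral_eq_lintegral_ofReal (hint.const_mul _)
          (Filter.Eventually.of_forall fun x => by positivity)).symm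
    _ ≤ _ := by
        apply ENNReal.ofReal_le_ofReal
        rw [integral_const_mul]
        calc Real.exp 1 * ∫ x, Real.exp (-‖x - u‖ ^ 2 / l ^ 2) * ‖T g x‖ ^ 2
            ≤ Real.exp 1 * (C * l * ∫ w, ‖g w‖ ^ 2 ∂(sg n)) := by gcongr
          _ = _ := by ring

/-- integrals of dilated functions -/
theorem dil (c : ℝ) (hc : 0 < c) (φ : E n → ℝ≥0∞) (hφ : Measurable φ) :
    ∫⁻ x, φ (c • x) = ENNReal.ofReal ((c ^ n)⁻¹) * ∫⁻ x, φ x := by
  have h := Measure.map_addHaar_smul (volume : Measure (E n)) hc.ne'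
  have h1 : ∫⁻ x, φ (c • x) = ∫⁻ x, φ x ∂(Measure.map (fun x => c • x) (volume : Measure (E n))) :=
    (lintegral_map hφ (measurable_const_smul c)).symm
  rw [h1, h, lintegral_smul_measure, finrank_euclideanSpace, Fintype.card_fin,
    abs_of_pos (by positivity)]
  rfl

/-- the local `L²` estimate for the Fourier transform of a density on the sphere -/
theorem loc (n : ℕ) (hn : 2 ≤ n) : ∃ C : ℝ, 0 < C ∧ ∀ g : sphere (0 : E n) 1 → ℂ, Measurable g →
    ∀ M : ℝ, 0 ≤ M → (∀ x, ‖g x‖ ≤ M) → ∀ l : ℝ, 0 < l → ∀ u : E n,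
    ∫⁻ ξ in closedBall u l, ‖ft g ξ‖ₑ ^ 2 ≤
      ENNReal.ofReal (C * l) * ∫⁻ w, ‖g w‖ₑ ^ 2 ∂(sigma n) := by
  obtain ⟨C, hC, h⟩ := locT n hn
  have hpi := Real.pi_gt_three
  refine ⟨C * (2 * Real.pi), by positivity, ?_⟩
  intro g hg M hM0 hM l hl u
  have hfin := sg_finite n
  have hTm : Measurable (T (ex g)) :=
    (Pool.Agent.H789R2.FR.L2.measurable_T _ (ex_meas g hg)).measurable
  have h1 := h (ex g) (ex_meas g hg) M (ex_bd g M hM0 hM) (2 * Real.pi * l) (by positivity)
    ((2 * Real.pi) • u)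
  have e1 : ∫⁻ w, ‖ex g w‖ₑ ^ 2 ∂(sg n) = ∫⁻ w, ‖g w‖ₑ ^ 2 ∂(sigma n) := by
    unfold sg sigma
    rw [(emb n).lintegral_map]
    simp only [ex_val]
  rw [e1] at h1
  have e2 : ∫⁻ ξ in closedBall u l, ‖ft g ξ‖ₑ ^ 2 ≤
      ∫⁻ x in closedBall ((2 * Real.pi) • u) (2 * Real.pi * l), ‖T (ex g) x‖ₑ ^ 2 := by
    rw [← lintegral_indicator isClosed_closedBall.measurableSet,
      ← lintegral_indicator isClosed_closedBall.measurableSet]
    set φ : E n → ℝ≥0∞ := (closedBall ((2 * Real.pi) • u) (2 * Real.pi * l)).indicator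
      fun x => ‖T (ex g) x‖ₑ ^ 2 with hφ
    have hφm : Measurable φ := (hTm.enorm.pow_const 2).indicator isClosed_closedBall.measurableSet
    have h2 : ∀ ξ, (closedBall u l).indicator (fun ξ => ‖ft g ξ‖ₑ ^ 2) ξ ≤
        φ ((2 * Real.pi) • ξ) := by
      intro ξ
      by_cases hx : ξ ∈ closedBall u l
      · have hx' : (2 * Real.pi) • ξ ∈ closedBall ((2 * Real.pi) • u) (2 * Real.pi * l) := by
          rw [mem_closedBall, dist_eq_norm] at hx ⊢
          rw [← smul_sub, norm_smul, Real.norm_of_nonneg (by positivity)]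
          gcongr
        rw [indicator_of_mem hx, hφ, indicator_of_mem hx', ft_eq]
      · rw [indicator_of_notMem hx]
        exact zero_le
    refine (lintegral_mono h2).trans ?_
    rw [dil (2 * Real.pi) (by positivity) φ hφm]
    calc ENNReal.ofReal (((2 * Real.pi) ^ n)⁻¹) * ∫⁻ x, φ x ≤ 1 * ∫⁻ x, φ x := by
          refine mul_le_mul' ?_ le_rfl
          rw [← ENNReal.ofReal_one]
          apply ENNReal.ofReal_le_ofReal
          apply inv_le_one_of_one_le₀
          exact one_le_pow₀ (by linarith)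
      _ = _ := one_mul _
  refine e2.trans (h1.trans (le_of_eq ?_))
  congr 2
  ring

/-- averaging over a displacement which is uniformly distributed in a cube of side `r` -/
theorem disp (r : ℝ) (hr : 0 < r) (φ : E n → ℝ≥0∞) (hφ : Measurable φ) (ξ : E n) :
    ∫⁻ u, φ (ξ - r • WithLp.toLp 2 u) ∂(mc n) ≤
      ENNReal.ofReal ((r ^ n)⁻¹) * ∫⁻ x in closedBall ξ (Real.sqrt n * r), φ x := by
  set Φ : E n → ℝ≥0∞ := (closedBall ξ (Real.sqrt n * r)).indicator φ with hΦ
  have hΦm : Measurable Φ := hφ.indicator isClosed_closedBall.measurableSet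
  have h1 : ∫⁻ u, φ (ξ - r • WithLp.toLp 2 u) ∂(mc n) ≤
      ∫⁻ u : Fin n → ℝ, Φ (ξ - r • WithLp.toLp 2 u) := by
    unfold mc
    rw [← lintegral_indicator (cube_meas n)]
    refine lintegral_mono fun u => ?_
    by_cases hu : u ∈ cube n
    · have h2 : ξ - r • (WithLp.toLp 2 u : E n) ∈ closedBall ξ (Real.sqrt n * r) := by
        rw [mem_closedBall, dist_eq_norm, sub_sub_cancel_left, norm_neg, norm_smul,
          Real.norm_of_nonneg hr.le, mul_comm]
        refine mul_le_mul_of_nonneg_right ?_ hr.le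
        rw [EuclideanSpace.norm_eq]
        apply Real.sqrt_le_sqrt
        calc ∑ i, ‖(WithLp.toLp 2 u : E n) i‖ ^ 2 ≤ ∑ _i : Fin n, (1 : ℝ) := by
              refine Finset.sum_le_sum fun i _ => ?_
              have h3 := hu i (mem_univ i)
              have : ‖(WithLp.toLp 2 u : E n) i‖ ≤ 1 := by
                change ‖u i‖ ≤ 1
                rw [Real.norm_of_nonneg h3.1]
                exact h3.2.le
              exact pow_le_one₀ (norm_nonneg _) this
          _ = n := by simp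
      rw [indicator_of_mem hu, hΦ, indicator_of_mem h2]
    · rw [indicator_of_notMem hu]
      exact zero_le
  refine h1.trans (le_of_eq ?_)
  have hm2 : Measurable fun y : E n => Φ (ξ - r • y) := hΦm.comp (by fun_prop)
  have h2 : ∫⁻ u : Fin n → ℝ, Φ (ξ - r • WithLp.toLp 2 u) = ∫⁻ y : E n, Φ (ξ - r • y) :=
    (PiLp.volume_preserving_toLp (Fin n)).lintegral_comp hm2
  rw [h2, dil r hr (fun z => Φ (ξ - z)) (hΦm.comp (by fun_prop)),
    lintegral_sub_left_eq_self Φ ξ, hΦ, lintegral_indicator isClosed_closedBall.measurableSet]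

end Pool.Agent.Q83.RP
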