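import Mathlib
import Pool.Agent.Q83.RP.B
import Pool.Agent.Q83.RP.D
set_option autoImplicit false

/-! Random positions of the pieces of a density on the sphere. -/

namespace Pool.Agent.Q83.RP

open MeasureTheory Set Complex Metric
open scoped ENNReal RealInnerProductSpace

variable {n : ℕ}

/-- the parameter box `[0,1)^n × [0,1)^n × [0,1)` -/
def box (n : ℕ) : Set ((Fin n → ℝ) × (Fin n → ℝ) × ℝ) := cube n ×ˢ cube n ×ˢ Ico (0 : ℝ) 1

/-- on the piece `θ_j` the density is multiplied by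
`exp (2 π i (k_j s + r ⟨x, frac (u + k_j v)⟩))` -/
noncomputable def moved {N : ℕ} (f : sphere (0 : E n) 1 → ℂ) (θ : Fin N → Set (sphere (0 : E n) 1))
    (k : Fin N → ℤ) (r : ℝ) (p : (Fin n → ℝ) × (Fin n → ℝ) × ℝ) (x : sphere (0 : E n) 1) : ℂ :=
  ∑ j, (θ j).indicator (fun x => Complex.exp ((2 * Real.pi * (k j * p.2.2 +
    r * ∑ i, (x : E n) i * Int.fract (p.1 i + k j * p.2.1 i)) : ℝ) * I) * f x) x

/-- the piece of the density -/
noncomputable def pc {N : ℕ} (f : sphere (0 : E n) 1 → ℂ) (θ : Fin N → Set (sphere (0 : E n) 1))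
    (j : Fin N) : sphere (0 : E n) 1 → ℂ := (θ j).indicator f

theorem pc_meas {N : ℕ} {f : sphere (0 : E n) 1 → ℂ} (hf : Measurable f)
    {θ : Fin N → Set (sphere (0 : E n) 1)} (hθ : ∀ j, MeasurableSet (θ j)) (j : Fin N) :
    Measurable (pc f θ j) := hf.indicator (hθ j)

theorem pc_bd {N : ℕ} {f : sphere (0 : E n) 1 → ℂ} {M : ℝ} (hfM : ∀ x, ‖f x‖ ≤ M) (hM : 0 ≤ M)
    (θ : Fin N → Set (sphere (0 : E n) 1)) (j : Fin N) (x : sphere (0 : E n) 1) :
    ‖pc f θ j x‖ ≤ M := by
  unfold pc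
  by_cases h : x ∈ θ j
  · rw [indicator_of_mem h]; exact hfM x
  · rw [indicator_of_notMem h, norm_zero]; exact hM

/-- the displacement as a vector -/
noncomputable def vec (k : ℤ) (r : ℝ) (u v : Fin n → ℝ) : E n := r • WithLp.toLp 2 (dis k u v)

theorem ft_moved {N : ℕ} {f : sphere (0 : E n) 1 → ℂ} (hf : Measurable f) {M : ℝ}
    (hfM : ∀ x, ‖f x‖ ≤ M)
    {θ : Fin N → Set (sphere (0 : E n) 1)} (hθ : ∀ j, MeasurableSet (θ j)) (k : Fin N → ℤ) (r : ℝ)
    (p : (Fin n → ℝ) × (Fin n → ℝ) × ℝ) (ξ : E n) :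
    ft (moved f θ k r p) ξ =
      ∑ j, ft (pc f θ j) (ξ - vec (k j) r p.1 p.2.1) * ch (k j) p.2.2 := by
  have hsum : ∀ x : sphere (0 : E n) 1,
      Complex.exp (-(2 * Real.pi * ⟪(x : E n), ξ⟫ : ℝ) * Complex.I) * moved f θ k r p x =
      ∑ j, (Complex.exp (-(2 * Real.pi * ⟪(x : E n), ξ - vec (k j) r p.1 p.2.1⟫ : ℝ) * Complex.I) *
        pc f θ j x) * ch (k j) p.2.2 := by
    intro x
    unfold moved
    rw [Finset.mul_sum]
    refine Finset.sum_congr rfl fun j _ => ?_
    unfold pc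
    by_cases h : x ∈ θ j
    · rw [indicator_of_mem h, indicator_of_mem h]
      have e1 : ⟪(x : E n), vec (k j) r p.1 p.2.1⟫ =
          r * ∑ i, (x : E n) i * Int.fract (p.1 i + k j * p.2.1 i) := by
        unfold vec
        rw [real_inner_smul_right, PiLp.inner_apply]
        congr 1
        refine Finset.sum_congr rfl fun i _ => ?_
        simp [dis, mul_comm]
      have e2 : Complex.exp (-(2 * Real.pi * ⟪(x : E n), ξ⟫ : ℝ) * Complex.I) *
          Complex.exp ((2 * Real.pi * (k j * p.2.2 +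
            r * ∑ i, (x : E n) i * Int.fract (p.1 i + k j * p.2.1 i)) : ℝ) * I) =
          Complex.exp (-(2 * Real.pi * ⟪(x : E n), ξ - vec (k j) r p.1 p.2.1⟫ : ℝ) * Complex.I) *
            ch (k j) p.2.2 := by
        unfold ch
        rw [← Complex.exp_add, ← Complex.exp_add, inner_sub_right, e1]
        congr 1
        push_cast
        ring
      calc _ = (Complex.exp (-(2 * Real.pi * ⟪(x : E n), ξ⟫ : ℝ) * Complex.I) *
          Complex.exp ((2 * Real.pi * (k j * p.2.2 +
            r * ∑ i, (x : E n) i * Int.fract (p.1 i + k j * p.2.1 i)) : ℝ) * I)) * f x := by ring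
        _ = _ := by rw [e2]; ring
    · rw [indicator_of_notMem h, indicator_of_notMem h]
      simp
  have hM0 : 0 ≤ M ∨ IsEmpty (sphere (0 : E n) 1) := by
    by_cases h : Nonempty (sphere (0 : E n) 1)
    · exact Or.inl ((norm_nonneg _).trans (hfM h.some))
    · exact Or.inr (not_nonempty_iff.1 h)
  rcases hM0 with hM0 | hem
  · conv_lhs => unfold ft
    simp only [hsum]
    rw [integral_finsetSum]
    · refine Finset.sum_congr rfl fun j _ => ?_
      rw [integral_mul_const]
      rfl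
    · intro j _
      refine Integrable.mul_const ?_ _
      refine Integrable.of_bound (C := M) ?_ (Filter.Eventually.of_forall fun x => ?_)
      · refine (Measurable.mul ?_ (pc_meas hf hθ j)).aestronglyMeasurable
        fun_prop
      · rw [norm_mul, show -((2 * Real.pi * ⟪(x : E n), ξ - vec (k j) r p.1 p.2.1⟫ : ℝ) : ℂ) * I =
          ((-(2 * Real.pi * ⟪(x : E n), ξ - vec (k j) r p.1 p.2.1⟫) : ℝ) : ℂ) * I by
            push_cast; ring,
          Complex.norm_exp_ofReal_mul_I, one_mul]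
        exact pc_bd hfM hM0 θ j x
  · have e0 : sigma n = 0 := Measure.eq_zero_of_isEmpty _
    unfold ft
    simp [e0]

theorem vec_meas (k : ℤ) (r : ℝ) :
    Measurable fun p : (Fin n → ℝ) × (Fin n → ℝ) => vec k r p.1 p.2 := by
  unfold vec
  refine Measurable.const_smul ?_ r
  exact (PiLp.volume_preserving_toLp (Fin n)).measurable.comp (dis_meas k)

/-- the total squared norm of the pieces -/
theorem pieces_sq {N : ℕ} {f : sphere (0 : E n) 1 → ℂ} (hf : Measurable f) {M : ℝ} (hM : 0 ≤ M)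
    (hfM : ∀ x, ‖f x‖ ≤ M)
    {θ : Fin N → Set (sphere (0 : E n) 1)} (hθ : ∀ j, MeasurableSet (θ j))
    (hd : Pairwise fun i j => Disjoint (θ i) (θ j)) :
    ∑ j, ∫⁻ w, ‖pc f θ j w‖ₑ ^ 2 ∂(sigma n) ≤ ENNReal.ofReal (M ^ 2 * (sigma n).real univ) := by
  rw [← lintegral_finsetSum _ fun j _ => ((pc_meas hf hθ j).enorm.pow_const 2)]
  calc ∫⁻ w, ∑ j, ‖pc f θ j w‖ₑ ^ 2 ∂(sigma n) ≤ ∫⁻ _w, ENNReal.ofReal (M ^ 2) ∂(sigma n) := by
        refine lintegral_mono fun w => ?_
        by_cases h : ∃ j, w ∈ θ j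
        · obtain ⟨j, hj⟩ := h
          rw [Finset.sum_eq_single j]
          · rw [← ofReal_norm, ← ENNReal.ofReal_pow (norm_nonneg _)]
            apply ENNReal.ofReal_le_ofReal
            exact pow_le_pow_left₀ (norm_nonneg _) (pc_bd hfM hM θ j w) 2
          · intro i _ hi
            have : w ∉ θ i := fun hwi => (Set.disjoint_left.1 (hd hi) hwi) hj
            unfold pc
            rw [indicator_of_notMem this]
            simp
          · intro hh
            exact absurd (Finset.mem_univ j) hh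
        · push Not at h
          have : ∑ j, ‖pc f θ j w‖ₑ ^ 2 = 0 := by
            refine Finset.sum_eq_zero fun j _ => ?_
            unfold pc
            rw [indicator_of_notMem (h j)]
            simp
          rw [this]
          exact zero_le
    _ = ENNReal.ofReal (M ^ 2 * (sigma n).real univ) := by
        rw [lintegral_const, ENNReal.ofReal_mul (by positivity), measureReal_def,
          ENNReal.ofReal_toReal (measure_ne_top _ _)]

/-- the pointwise bound for the transform of a piece -/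
theorem piece_sup {N : ℕ} {f : sphere (0 : E n) 1 → ℂ} {M : ℝ} (hM : 0 ≤ M)
    (hfM : ∀ x, ‖f x‖ ≤ M)
    {θ : Fin N → Set (sphere (0 : E n) 1)} (hθ : ∀ j, MeasurableSet (θ j))
    {δ : ℝ} (hδ : 0 ≤ δ) (j : Fin N) (hj : sigma n (θ j) ≤ ENNReal.ofReal δ) (ξ : E n) :
    ‖ft (pc f θ j) ξ‖ ≤ M * δ := by
  refine (ft_bd _ _).trans ?_
  have h1 : ∫ x, ‖pc f θ j x‖ ∂(sigma n) ≤ ∫ x, (θ j).indicator (fun _ => M) x ∂(sigma n) := by
    refine integral_mono_of_nonneg (Filter.Eventually.of_forall fun _ => norm_nonneg _)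
      ((integrable_const M).indicator (hθ j)) (Filter.Eventually.of_forall fun x => ?_)
    unfold pc
    by_cases h : x ∈ θ j
    · simp only [indicator_of_mem h]; exact hfM x
    · simp only [indicator_of_notMem h, norm_zero, le_refl]
  refine h1.trans ?_
  rw [integral_indicator (hθ j), setIntegral_const, smul_eq_mul, mul_comm]
  refine mul_le_mul_of_nonneg_left ?_ hM
  rw [measureReal_def]
  exact ENNReal.toReal_le_of_le_ofReal hδ hj

end Pool.Agent.Q83.RP
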