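import Mathlib
import Pool.Agent.Q83.RP.F
set_option autoImplicit false

/-! Random positions of the pieces of a density on the sphere: the estimate. -/

namespace Pool.Agent.Q83.RP

open MeasureTheory Set Complex Metric
open scoped ENNReal RealInnerProductSpace

variable {n : ℕ}

theorem box_eq (n : ℕ) : (volume : Measure ((Fin n → ℝ) × (Fin n → ℝ) × ℝ)).restrict (box n) =
    (mc n).prod ((mc n).prod m1) := by
  unfold box mc m1
  rw [Measure.prod_restrict, Measure.prod_restrict]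
  rfl

/-- the integrand -/
noncomputable def PF {N : ℕ} (F : Fin N → E n → ℂ) (k : Fin N → ℤ) (r : ℝ) (ξ : E n)
    (p : (Fin n → ℝ) × (Fin n → ℝ) × ℝ) : ℂ :=
  ∑ j, F j (ξ - vec (k j) r p.1 p.2.1) * ch (k j) p.2.2

theorem PF_meas {N : ℕ} {F : Fin N → E n → ℂ} (hF : ∀ j, Measurable (F j)) (k : Fin N → ℤ)
    (r : ℝ) : Measurable fun z : ((Fin n → ℝ) × (Fin n → ℝ) × ℝ) × E n => PF F k r z.2 z.1 := by
  unfold PF
  refine Finset.measurable_fun_sum _ fun j _ => ?_
  refine Measurable.mul ?_ ?_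
  · refine (hF j).comp (measurable_snd.sub ?_)
    exact (vec_meas (k j) r).comp
      ((measurable_fst.comp measurable_fst).prodMk
        (measurable_fst.comp (measurable_snd.comp measurable_fst)))
  · exact (ch_cont (k j)).measurable.comp (measurable_snd.comp (measurable_snd.comp measurable_fst))

theorem phases1 {N : ℕ} {k : Fin N → ℤ} (h : Sidon k) (a : Fin N → ℂ) (q : ℝ) (h2 : 2 ≤ q)
    (h4 : q ≤ 4) :
    ∫⁻ s, ‖∑ j, a j * ch (k j) s‖ₑ ^ q ∂m1 ≤ 3 * (∑ j, ‖a j‖ₑ ^ 2) ^ (q / 2) := by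
  unfold m1
  exact phases h a q h2 h4

/-- abstract iterated estimate -/
theorem iter {α β γ : Type*} [MeasurableSpace α] [MeasurableSpace β] [MeasurableSpace γ]
    (μ : Measure α) (ν : Measure β) (ρ : Measure γ) [SFinite μ] [SFinite ν] [SFinite ρ]
    (f : α × β × γ → ℝ≥0∞) (hf : Measurable f) (g : α × β → ℝ≥0∞) (hg : Measurable g)
    (c : ℝ≥0∞) (h : ∀ x y, ∫⁻ z, f (x, y, z) ∂ρ ≤ c * g (x, y)) :
    ∫⁻ p, f p ∂(μ.prod (ν.prod ρ)) ≤ c * ∫⁻ p, g p ∂(μ.prod ν) := by
  rw [lintegral_prod _ hf.aemeasurable, ← lintegral_const_mul _ hg,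
    lintegral_prod _ (hg.const_mul c).aemeasurable]
  refine lintegral_mono fun x => ?_
  have h3 : Measurable fun y : β × γ => f (x, y) := hf.comp (measurable_const.prodMk measurable_id)
  rw [lintegral_prod _ h3.aemeasurable]
  exact lintegral_mono fun y => h x y

theorem inner_s {N : ℕ} {F : Fin N → E n → ℂ} (hF : ∀ j, Measurable (F j)) {k : Fin N → ℤ}
    (hk : Sidon k) (r : ℝ) (ξ : E n) (q : ℝ) (h2 : 2 ≤ q) (h4 : q ≤ 4) :
    ∫⁻ p, ‖PF F k r ξ p‖ₑ ^ q ∂((mc n).prod ((mc n).prod m1)) ≤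
      3 * ∫⁻ z, (∑ j, ‖F j (ξ - vec (k j) r z.1 z.2)‖ₑ ^ 2) ^ (q / 2) ∂((mc n).prod (mc n)) := by
  have hm : Measurable fun p : (Fin n → ℝ) × (Fin n → ℝ) × ℝ => ‖PF F k r ξ p‖ₑ ^ q :=
    (((PF_meas hF k r).comp (measurable_id.prodMk measurable_const)).enorm).pow_const q
  have hm2 : Measurable fun z : (Fin n → ℝ) × (Fin n → ℝ) =>
      (∑ j, ‖F j (ξ - vec (k j) r z.1 z.2)‖ₑ ^ 2) ^ (q / 2) := by
    refine Measurable.pow_const ?_ _
    refine Finset.measurable_fun_sum _ fun j _ => ?_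
    exact (((hF j).comp (measurable_const.sub (vec_meas (k j) r))).enorm).pow_const 2
  exact iter (mc n) (mc n) m1 _ hm _ hm2 3 fun u v =>
    phases1 hk (fun j => F j (ξ - vec (k j) r u v)) q h2 h4

theorem Zmass {F : E n → ℂ} (hF : Measurable F) (k : ℤ) (r : ℝ) (ξ : E n) :
    ∫⁻ z, ‖F (ξ - vec k r z.1 z.2)‖ₑ ^ 2 ∂((mc n).prod (mc n)) =
      ∫⁻ u, ‖F (ξ - r • WithLp.toLp 2 u)‖ₑ ^ 2 ∂(mc n) := by
  have hm : Measurable fun u : Fin n → ℝ => ‖F (ξ - r • WithLp.toLp 2 u)‖ₑ ^ 2 := by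
    refine ((hF.comp (measurable_const.sub ?_)).enorm).pow_const 2
    exact (PiLp.volume_preserving_toLp (Fin n)).measurable.const_smul r
  exact dis_one k _ hm

theorem mid {N : ℕ} {F : Fin N → E n → ℂ} (hF : ∀ j, Measurable (F j)) {k : Fin N → ℤ}
    (hk : Sidon k) (r : ℝ) (ξ : E n) (q : ℝ) (h2 : 2 ≤ q) (h4 : q ≤ 4) (b : ℝ≥0∞)
    (hb : ∀ j x, ‖F j x‖ₑ ≤ b) (l : ℝ≥0∞) (hl : l ≠ ⊤)
    (hS : ∑ j, ∫⁻ u, ‖F j (ξ - r • WithLp.toLp 2 u)‖ₑ ^ 2 ∂(mc n) ≤ l) :
    ∫⁻ p, ‖PF F k r ξ p‖ₑ ^ q ∂((mc n).prod ((mc n).prod m1)) ≤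
      3 * ((b ^ (q - 2) + 2 * l ^ (q / 2 - 1)) *
        ∑ j, ∫⁻ u, ‖F j (ξ - r • WithLp.toLp 2 u)‖ₑ ^ 2 ∂(mc n)) := by
  refine (inner_s hF hk r ξ q h2 h4).trans (mul_le_mul' le_rfl ?_)
  set Z : Fin N → (Fin n → ℝ) × (Fin n → ℝ) → ℝ≥0∞ := fun j z =>
    ‖F j (ξ - vec (k j) r z.1 z.2)‖ₑ ^ 2 with hZ
  have hZm : ∀ j, Measurable (Z j) := fun j =>
    (((hF j).comp (measurable_const.sub (vec_meas (k j) r))).enorm).pow_const 2
  have hZ1 : ∀ j, ∫⁻ z, Z j z ∂((mc n).prod (mc n)) =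
      ∫⁻ u, ‖F j (ξ - r • WithLp.toLp 2 u)‖ₑ ^ 2 ∂(mc n) := fun j => Zmass (hF j) (k j) r ξ
  have hφm : ∀ j, Measurable fun u : Fin n → ℝ => ‖F j (ξ - r • WithLp.toLp 2 u)‖ₑ ^ 2 := by
    intro j
    refine (((hF j).comp (measurable_const.sub ?_)).enorm).pow_const 2
    exact (PiLp.volume_preserving_toLp (Fin n)).measurable.const_smul r
  have hp : ∀ i j, i ≠ j → ∫⁻ z, Z i z * Z j z ∂((mc n).prod (mc n)) =
      (∫⁻ z, Z i z ∂((mc n).prod (mc n))) * ∫⁻ z, Z j z ∂((mc n).prod (mc n)) := by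
    intro i j hij
    rw [hZ1, hZ1]
    exact dis_two (k i) (k j) (fun h => hij (hk.inj h)) _ _ (hφm i) (hφm j)
  have h := pair ((mc n).prod (mc n)) Z hZm hp l hl (by simp only [hZ1]; exact hS) (q / 2)
    (by linarith) (by linarith)
  refine h.trans ?_
  simp only [hZ1]
  rw [add_mul]
  refine add_le_add ?_ (le_of_eq (by ring))
  rw [Finset.mul_sum]
  refine Finset.sum_le_sum fun j _ => ?_
  rw [← hZ1 j, ← lintegral_const_mul _ (hZm j)]
  refine lintegral_mono fun z => ?_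
  simp only [hZ]
  set t : ℝ≥0∞ := ‖F j (ξ - vec (k j) r z.1 z.2)‖ₑ with ht
  have e : (t ^ 2) ^ (q / 2) = t ^ (q - 2) * t ^ 2 := by
    rw [← ENNReal.rpow_natCast, ← ENNReal.rpow_mul,
      ← ENNReal.rpow_add_of_nonneg _ _ (by linarith) (by norm_num)]
    congr 1
    push_cast
    ring
  rw [e]
  exact mul_le_mul' (ENNReal.rpow_le_rpow (hb j _) (by linarith)) le_rfl

/-- the estimate, with explicit dependence on all parameters -/
theorem core (n : ℕ) (hn : 2 ≤ n) : ∃ C : ℝ, 0 < C ∧ ∀ (q : ℝ), 2 ≤ q → q ≤ 4 →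
    ∀ (f : sphere (0 : E n) 1 → ℂ), Measurable f → ∀ M : ℝ, 0 ≤ M → (∀ x, ‖f x‖ ≤ M) →
    ∀ (N : ℕ) (θ : Fin N → Set (sphere (0 : E n) 1)), (∀ j, MeasurableSet (θ j)) →
    (Pairwise fun i j => Disjoint (θ i) (θ j)) → ∀ δ : ℝ, 0 ≤ δ →
    (∀ j, sigma n (θ j) ≤ ENNReal.ofReal δ) → ∀ k : Fin N → ℤ, Sidon k →
    ∀ r R : ℝ, 0 < r → r ≤ R → ∀ a : E n,
    ∫⁻ p in box n, ∫⁻ ξ in closedBall a R, ‖ft (moved f θ k r p) ξ‖ₑ ^ q ≤
      ENNReal.ofReal (C * M ^ q * R * (r ^ (-(((n : ℝ) - 1) * (q - 2) / 2)) + δ ^ (q - 2))) := by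
  obtain ⟨C0, hC0, hloc⟩ := loc n hn
  set σ : ℝ := (sigma n).real univ with hσ
  have hσ0 : 0 ≤ σ := measureReal_nonneg
  have hn' : (2 : ℝ) ≤ n := by exact_mod_cast hn
  have hsn : 0 ≤ Real.sqrt n := Real.sqrt_nonneg _
  set D : ℝ := max 1 (C0 * Real.sqrt n * σ) with hD
  have hD1 : 1 ≤ D := le_max_left _ _
  refine ⟨3 * (1 + 2 * D) * (C0 * (1 + Real.sqrt n) * (σ + 1)), by positivity, ?_⟩
  intro q h2 h4 f hf M hM hfM N θ hθ hd δ hδ hδθ k hk r R hr hrR a
  have hR : 0 < R := hr.trans_le hrR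
  set F : Fin N → E n → ℂ := fun j => ft (pc f θ j) with hFdef
  have hF : ∀ j, Measurable (F j) := fun j => ft_meas _ (pc_meas hf hθ j)
  have hsq := pieces_sq hf hM hfM hθ hd
  have hφm : ∀ j, Measurable fun z : E n × (Fin n → ℝ) =>
      ‖F j (z.1 - r • WithLp.toLp 2 z.2)‖ₑ ^ 2 := by
    intro j
    refine (((hF j).comp (measurable_fst.sub ?_)).enorm).pow_const 2
    exact ((PiLp.volume_preserving_toLp (Fin n)).measurable.comp measurable_snd).const_smul r
  rw [box_eq]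
  have hPF : ∀ p ξ, ft (moved f θ k r p) ξ = PF F k r ξ p := fun p ξ =>
    ft_moved hf hfM hθ k r p ξ
  simp only [hPF]
  rw [lintegral_lintegral_swap (((PF_meas hF k r).enorm.pow_const q).aemeasurable)]
  -- the parameters of the pointwise estimate
  set b : ℝ≥0∞ := ENNReal.ofReal (M * δ) with hb
  have hbb : ∀ j x, ‖F j x‖ₑ ≤ b := by
    intro j x
    rw [← ofReal_norm, hb]
    exact ENNReal.ofReal_le_ofReal (piece_sup hM hfM hθ hδ j (hδθ j) x)
  set lam : ℝ := C0 * Real.sqrt n * σ * (M ^ 2 * ((r ^ n)⁻¹ * r)) with hlam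
  have hlam0 : 0 ≤ lam := by positivity
  have hS : ∀ ξ : E n, ∑ j, ∫⁻ u, ‖F j (ξ - r • WithLp.toLp 2 u)‖ₑ ^ 2 ∂(mc n) ≤
      ENNReal.ofReal lam := by
    intro ξ
    calc ∑ j, ∫⁻ u, ‖F j (ξ - r • WithLp.toLp 2 u)‖ₑ ^ 2 ∂(mc n)
        ≤ ∑ j, ENNReal.ofReal ((r ^ n)⁻¹) * (ENNReal.ofReal (C0 * (Real.sqrt n * r)) *
            ∫⁻ w, ‖pc f θ j w‖ₑ ^ 2 ∂(sigma n)) := by
          refine Finset.sum_le_sum fun j _ => ?_
          refine (disp r hr (fun x => ‖F j x‖ₑ ^ 2) ((hF j).enorm.pow_const 2) ξ).trans ?_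
          refine mul_le_mul' le_rfl ?_
          exact hloc (pc f θ j) (pc_meas hf hθ j) M hM (pc_bd hfM hM θ j) (Real.sqrt n * r)
            (by positivity) ξ
      _ = ENNReal.ofReal ((r ^ n)⁻¹ * (C0 * (Real.sqrt n * r))) *
            ∑ j, ∫⁻ w, ‖pc f θ j w‖ₑ ^ 2 ∂(sigma n) := by
          rw [← Finset.mul_sum, ← Finset.mul_sum, ← mul_assoc, ← ENNReal.ofReal_mul (by positivity)]
      _ ≤ ENNReal.ofReal ((r ^ n)⁻¹ * (C0 * (Real.sqrt n * r))) *
            ENNReal.ofReal (M ^ 2 * σ) := mul_le_mul' le_rfl hsq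
      _ = ENNReal.ofReal lam := by
          rw [← ENNReal.ofReal_mul (by positivity), hlam]
          congr 1
          ring
  calc ∫⁻ ξ in closedBall a R, ∫⁻ p, ‖PF F k r ξ p‖ₑ ^ q ∂((mc n).prod ((mc n).prod m1))
      ≤ ∫⁻ ξ in closedBall a R, 3 * ((b ^ (q - 2) + 2 * ENNReal.ofReal lam ^ (q / 2 - 1)) *
        ∑ j, ∫⁻ u, ‖F j (ξ - r • WithLp.toLp 2 u)‖ₑ ^ 2 ∂(mc n)) :=
        lintegral_mono fun ξ => mid hF hk r ξ q h2 h4 b hbb _ ENNReal.ofReal_ne_top (hS ξ)
    _ = 3 * ((b ^ (q - 2) + 2 * ENNReal.ofReal lam ^ (q / 2 - 1)) *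
        ∑ j, ∫⁻ u, (∫⁻ ξ in closedBall a R, ‖F j (ξ - r • WithLp.toLp 2 u)‖ₑ ^ 2) ∂(mc n)) := by
        have hmj : ∀ j, Measurable fun ξ : E n =>
            ∫⁻ u, ‖F j (ξ - r • WithLp.toLp 2 u)‖ₑ ^ 2 ∂(mc n) := fun j =>
          (hφm j).lintegral_prod_right'
        rw [lintegral_const_mul _ ((Finset.measurable_fun_sum _ fun j _ => hmj j).const_mul _),
          lintegral_const_mul _ (Finset.measurable_fun_sum _ fun j _ => hmj j),
          lintegral_finsetSum _ fun j _ => hmj j]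
        congr 2
        refine Finset.sum_congr rfl fun j _ => ?_
        exact lintegral_lintegral_swap (hφm j).aemeasurable
    _ ≤ 3 * ((b ^ (q - 2) + 2 * ENNReal.ofReal lam ^ (q / 2 - 1)) *
        ∑ j, (ENNReal.ofReal (C0 * (R + Real.sqrt n * r)) *
            ∫⁻ w, ‖pc f θ j w‖ₑ ^ 2 ∂(sigma n))) := by
        refine mul_le_mul' le_rfl (mul_le_mul' le_rfl (Finset.sum_le_sum fun j _ => ?_))
        have h5 : ∀ u ∈ cube n, (∫⁻ ξ in closedBall a R, ‖F j (ξ - r • WithLp.toLp 2 u)‖ₑ ^ 2) ≤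
            ENNReal.ofReal (C0 * (R + Real.sqrt n * r)) *
              ∫⁻ w, ‖pc f θ j w‖ₑ ^ 2 ∂(sigma n) := by
          intro u hu
          refine le_trans ?_ (hloc (pc f θ j) (pc_meas hf hθ j) M hM (pc_bd hfM hM θ j)
            (R + Real.sqrt n * r) (by positivity) a)
          rw [← lintegral_indicator isClosed_closedBall.measurableSet,
            ← lintegral_indicator isClosed_closedBall.measurableSet]
          set G : E n → ℝ≥0∞ := (closedBall a (R + Real.sqrt n * r)).indicator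
            fun x => ‖F j x‖ₑ ^ 2 with hG
          calc ∫⁻ ξ, (closedBall a R).indicator
                (fun ξ => ‖F j (ξ - r • WithLp.toLp 2 u)‖ₑ ^ 2) ξ
              ≤ ∫⁻ ξ, G (ξ - r • WithLp.toLp 2 u) := by
                refine lintegral_mono fun ξ => ?_
                by_cases hx : ξ ∈ closedBall a R
                · have hx' : ξ - r • (WithLp.toLp 2 u : E n) ∈
                      closedBall a (R + Real.sqrt n * r) := by
                    rw [mem_closedBall, dist_eq_norm] at hx ⊢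
                    have h6 : ‖r • (WithLp.toLp 2 u : E n)‖ ≤ Real.sqrt n * r := by
                      rw [norm_smul, Real.norm_of_nonneg hr.le, mul_comm]
                      refine mul_le_mul_of_nonneg_right ?_ hr.le
                      rw [EuclideanSpace.norm_eq]
                      apply Real.sqrt_le_sqrt
                      calc ∑ i, ‖(WithLp.toLp 2 u : E n) i‖ ^ 2 ≤ ∑ _i : Fin n, (1 : ℝ) := by
                            refine Finset.sum_le_sum fun i _ => ?_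
                            have h3 := hu i (mem_univ i)
                            have : ‖(WithLp.toLp 2 u : E n) i‖ ≤ 1 := by
                              change ‖u i‖ ≤ 1
                              rw [Real.norm_of_nonneg h3.1]
                              exact h3.2.le
                            exact pow_le_one₀ (norm_nonneg _) this
                        _ = n := by simp
                    calc ‖ξ - r • (WithLp.toLp 2 u : E n) - a‖
                        = ‖(ξ - a) - r • (WithLp.toLp 2 u : E n)‖ := by congr 1; abel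
                      _ ≤ ‖ξ - a‖ + ‖r • (WithLp.toLp 2 u : E n)‖ := norm_sub_le _ _
                      _ ≤ _ := add_le_add hx h6
                  rw [indicator_of_mem hx, hG, indicator_of_mem hx']
                · rw [indicator_of_notMem hx]
                  exact zero_le
            _ = ∫⁻ ξ, G ξ := lintegral_sub_right_eq_self G _
        calc ∫⁻ u, (∫⁻ ξ in closedBall a R, ‖F j (ξ - r • WithLp.toLp 2 u)‖ₑ ^ 2) ∂(mc n)
            ≤ ∫⁻ _u, ENNReal.ofReal (C0 * (R + Real.sqrt n * r)) *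
              ∫⁻ w, ‖pc f θ j w‖ₑ ^ 2 ∂(sigma n) ∂(mc n) := by
              unfold mc
              exact setLIntegral_mono' (cube_meas n) h5
          _ = _ := by rw [lintegral_const, measure_univ, mul_one]
    _ ≤ 3 * ((ENNReal.ofReal (M ^ (q - 2) * δ ^ (q - 2)) +
          2 * ENNReal.ofReal (D * (M ^ (q - 2) * r ^ (-(((n : ℝ) - 1) * (q - 2) / 2))))) *
        (ENNReal.ofReal (C0 * (1 + Real.sqrt n) * R) * ENNReal.ofReal (M ^ 2 * (σ + 1)))) := by
        refine mul_le_mul' le_rfl (mul_le_mul' (add_le_add ?_ (mul_le_mul' le_rfl ?_)) ?_)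
        · rw [hb, ENNReal.ofReal_rpow_of_nonneg (by positivity) (by linarith),
            Real.mul_rpow hM hδ]
        · rw [ENNReal.ofReal_rpow_of_nonneg hlam0 (by linarith)]
          apply ENNReal.ofReal_le_ofReal
          rw [hlam, Real.mul_rpow (x := C0 * Real.sqrt n * σ) (by positivity) (by positivity),
            Real.mul_rpow (x := M ^ 2) (by positivity) (by positivity)]
          have e1 : (M ^ 2) ^ (q / 2 - 1) = M ^ (q - 2) := by
            rw [← Real.rpow_natCast, ← Real.rpow_mul hM]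
            congr 1
            push_cast
            ring
          have e2 : ((r ^ n)⁻¹ * r) ^ (q / 2 - 1) = r ^ (-(((n : ℝ) - 1) * (q - 2) / 2)) := by
            have : (r ^ n)⁻¹ * r = r ^ (-((n : ℝ) - 1)) := by
              rw [← Real.rpow_natCast, ← Real.rpow_neg hr.le]
              conv_lhs => rw [← Real.rpow_one r, ← Real.rpow_mul hr.le, one_mul]
              rw [← Real.rpow_add hr]
              congr 1
              ring
            rw [this, ← Real.rpow_mul hr.le]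
            congr 1
            ring
          rw [e1, e2]
          refine mul_le_mul_of_nonneg_right ?_ (by positivity)
          calc (C0 * Real.sqrt n * σ) ^ (q / 2 - 1) ≤ D ^ (q / 2 - 1) :=
                Real.rpow_le_rpow (by positivity) (le_max_right _ _) (by linarith)
            _ ≤ D ^ (1 : ℝ) := Real.rpow_le_rpow_of_exponent_le hD1 (by linarith)
            _ = D := Real.rpow_one _
        · rw [← Finset.mul_sum]
          refine mul_le_mul' ?_ (hsq.trans ?_)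
          · apply ENNReal.ofReal_le_ofReal
            rw [mul_assoc]
            refine mul_le_mul_of_nonneg_left ?_ hC0.le
            nlinarith
          · apply ENNReal.ofReal_le_ofReal
            gcongr
            linarith
    _ = ENNReal.ofReal (3 * ((M ^ (q - 2) * δ ^ (q - 2) +
          2 * (D * (M ^ (q - 2) * r ^ (-(((n : ℝ) - 1) * (q - 2) / 2))))) *
        ((C0 * (1 + Real.sqrt n) * R) * (M ^ 2 * (σ + 1))))) := by
        rw [ENNReal.ofReal_mul (by norm_num : (0 : ℝ) ≤ 3), ENNReal.ofReal_mul (by positivity :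
            0 ≤ M ^ (q - 2) * δ ^ (q - 2) +
              2 * (D * (M ^ (q - 2) * r ^ (-(((n : ℝ) - 1) * (q - 2) / 2))))),
          ENNReal.ofReal_add (by positivity) (by positivity),
          ENNReal.ofReal_mul (by norm_num : (0 : ℝ) ≤ 2),
          ENNReal.ofReal_mul (by positivity : 0 ≤ C0 * (1 + Real.sqrt n) * R),
          ENNReal.ofReal_ofNat, ENNReal.ofReal_ofNat]
    _ ≤ _ := by
        apply ENNReal.ofReal_le_ofReal
        set ρ : ℝ := r ^ (-(((n : ℝ) - 1) * (q - 2) / 2)) with hρ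
        have hρ0 : 0 ≤ ρ := by positivity
        set dd : ℝ := δ ^ (q - 2) with hdd
        have hdd0 : 0 ≤ dd := by positivity
        have eM : M ^ (q - 2) * M ^ 2 = M ^ q := by
          rw [← Real.rpow_natCast, ← Real.rpow_add_of_nonneg hM (by linarith) (by norm_num)]
          congr 1
          push_cast
          ring
        have e3 : 3 * ((M ^ (q - 2) * dd + 2 * (D * (M ^ (q - 2) * ρ))) *
            ((C0 * (1 + Real.sqrt n) * R) * (M ^ 2 * (σ + 1)))) =
            3 * (C0 * (1 + Real.sqrt n) * (σ + 1)) * (M ^ (q - 2) * M ^ 2) * R *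
              (dd + 2 * D * ρ) := by ring
        rw [e3, eM]
        have e4 : dd + 2 * D * ρ ≤ (1 + 2 * D) * (ρ + dd) := by nlinarith
        calc 3 * (C0 * (1 + Real.sqrt n) * (σ + 1)) * M ^ q * R * (dd + 2 * D * ρ)
            ≤ 3 * (C0 * (1 + Real.sqrt n) * (σ + 1)) * M ^ q * R * ((1 + 2 * D) * (ρ + dd)) := by
              refine mul_le_mul_of_nonneg_left e4 (by positivity)
          _ = _ := by ring

end Pool.Agent.Q83.RP
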